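import Pool.Agent.Helper28_TP.StS

/-!
# ANN: large boxes are joined to far spheres
-/

set_option autoImplicit false

namespace Pool.Agent.TP.H48

open Pool.Agent.TP

variable {k : ℕ}

theorem conn_mono {N : Finset (Pt k)} {A B : Set (Pt k)} (h : A ⊆ B) {x y : Pt k}
    (hc : Conn N A x y) : Conn N B x y :=
  Relation.ReflTransGen.mono (fun _ _ h' => ⟨h'.1, h h'.2⟩) _ _ hc

theorem bx_mono {b : Pt k} {m n : ℕ} (h : m ≤ n) : bx b m ⊆ bx b n := by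
  intro x hx
  rw [mem_bx] at hx ⊢
  intro i
  have := hx i
  have h' : (m : ℤ) ≤ n := by exact_mod_cast h
  linarith

theorem hit_mono {N : Finset (Pt k)} {m m' : ℕ} (hm : m ≤ m') {A B : Finset (Pt k)} (h : A ⊆ B)
    {x : Pt k} (hc : Hit N m A x) : Hit N m' B x := by
  obtain ⟨s, hs, hc⟩ := hc
  exact ⟨s, bx_mono hm hs, conn_mono (Finset.coe_subset.2 h) hc⟩

theorem step_bx {N : Finset (Pt k)} {ρ : ℕ} (hN : GoodN N ρ) {j : ℕ} {u v : Pt k}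
    (hu : u ∈ bx (0 : Pt k) j) (h : v - u ∈ N) : v ∈ bx (0 : Pt k) (j + ρ) := by
  rw [mem_bx] at hu ⊢
  intro i
  have h1 := hu i
  have h2 := hN.bd _ h i
  simp only [Pi.zero_apply, sub_zero, Pi.sub_apply] at h1 h2 ⊢
  rw [abs_le] at h1 h2 ⊢
  push_cast
  constructor <;> linarith

/-- The part of a path up to the first exit of the box. -/
theorem first_exit {N : Finset (Pt k)} {ρ : ℕ} (hN : GoodN N ρ) {j : ℕ} {A : Finset (Pt k)}
    {s y : Pt k} (hs : s ∈ bx (0 : Pt k) j) (hc : Conn N ↑A s y) :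
    (y ∈ bx (0 : Pt k) j ∧ Conn N ↑(A ∩ bx (0 : Pt k) (j + ρ)) s y) ∨
      ∃ v ∈ bx (0 : Pt k) (j + ρ) \ bx 0 j, Conn N ↑(A ∩ bx (0 : Pt k) (j + ρ)) s v := by
  induction hc with
  | refl => exact Or.inl ⟨hs, Relation.ReflTransGen.refl⟩
  | @tail u v _ huv ih =>
    rcases ih with ⟨hu, hcu⟩ | h
    · have hv := step_bx hN hu huv.1
      have hcv : Conn N ↑(A ∩ bx (0 : Pt k) (j + ρ)) s v :=
        hcu.tail ⟨huv.1, by
          rw [Finset.mem_coe, Finset.mem_inter]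
          exact ⟨huv.2, hv⟩⟩
      by_cases h : v ∈ bx (0 : Pt k) j
      · exact Or.inl ⟨h, hcv⟩
      · exact Or.inr ⟨v, Finset.mem_sdiff.2 ⟨hv, h⟩, hcv⟩
    · exact Or.inr h

/-- The part of a path after its last point in the box. -/
theorem last_exit {N : Finset (Pt k)} {r : ℕ} {A : Finset (Pt k)}
    {s y : Pt k} (hs : s ∈ bx (0 : Pt k) r) (hc : Conn N ↑A s y) :
    y ∈ bx (0 : Pt k) r ∨ ∃ w ∈ bx (0 : Pt k) r, Conn N ↑(A \ bx (0 : Pt k) r) w y := by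
  induction hc with
  | refl => exact Or.inl hs
  | @tail u v _ huv ih =>
    by_cases h : v ∈ bx (0 : Pt k) r
    · exact Or.inl h
    · have hv : v ∈ (↑(A \ bx (0 : Pt k) r) : Set (Pt k)) := by
        rw [Finset.mem_coe, Finset.mem_sdiff]
        exact ⟨huv.2, h⟩
      rcases ih with hu | ⟨w, hw, hcw⟩
      · exact Or.inr ⟨u, hu, Relation.ReflTransGen.single ⟨huv.1, hv⟩⟩
      · exact Or.inr ⟨w, hw, hcw.tail ⟨huv.1, hv⟩⟩

/-- The arm event. -/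
def Arm (N : Finset (Pt k)) (ρ m n : ℕ) (A : Finset (Pt k)) : Prop :=
  ∃ y ∈ bx (0 : Pt k) (n + ρ) \ bx 0 n, Hit N m A y

theorem arm_mono {N : Finset (Pt k)} {ρ m m' n : ℕ} (hm : m ≤ m') {A B : Finset (Pt k)}
    (h : A ⊆ B) (hc : Arm N ρ m n A) : Arm N ρ m' n B := by
  obtain ⟨y, hy, hc⟩ := hc
  exact ⟨y, hy, hit_mono hm h hc⟩

theorem u01 {p : ℝ} (h0 : 0 < p) (h1 : p < 1) (V : Finset (Pt k)) : U01 V (fun _ => p) :=
  fun _ _ => ⟨h0.le, h1.le⟩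

theorem arm_split {N : Finset (Pt k)} {ρ : ℕ} (hN : GoodN N ρ) {m j n : ℕ} (hmj : m ≤ j)
    (hjn : j + ρ ≤ n) {A : Finset (Pt k)} (h : Arm N ρ m n A) :
    Arm N ρ m j (A ∩ bx (0 : Pt k) (j + ρ)) ∧ Arm N ρ (j + ρ) n (A \ bx (0 : Pt k) (j + ρ)) := by
  obtain ⟨y, hy, s, hs, hc⟩ := h
  have hyn := (Finset.mem_sdiff.1 hy).2
  constructor
  · rcases first_exit hN (bx_mono hmj hs) hc with ⟨h1, _⟩ | ⟨v, hv, hcv⟩
    · exact absurd (bx_mono (by omega) h1) hyn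
    · exact ⟨v, hv, s, hs, hcv⟩
  · rcases last_exit (bx_mono (by omega : m ≤ j + ρ) hs) hc with h1 | ⟨w, hw, hcw⟩
    · exact absurd (bx_mono hjn h1) hyn
    · exact ⟨y, hy, w, hw, hcw⟩

/-- Quasi-multiplicativity. -/
theorem quasi {N : Finset (Pt k)} {ρ : ℕ} (hN : GoodN N ρ) {p : ℝ} (hp0 : 0 < p) (hp1 : p < 1)
    {m j n : ℕ} (hmj : m ≤ j) (hjn : j + ρ ≤ n) :
    PS (bx (0 : Pt k) (n + ρ)) (fun _ => p) (Arm N ρ m n) ≤
      PS (bx (0 : Pt k) (j + ρ)) (fun _ => p) (Arm N ρ m j) *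
        PS (bx (0 : Pt k) (n + ρ)) (fun _ => p) (Arm N ρ (j + ρ) n) := by
  have hsub : bx (0 : Pt k) (j + ρ) ⊆ bx (0 : Pt k) (n + ρ) := bx_mono (by omega)
  have hU := u01 hp0 hp1 (bx (0 : Pt k) (n + ρ))
  have h1 : PS (bx (0 : Pt k) (n + ρ)) (fun _ => p) (Arm N ρ m n) ≤
      PS (bx (0 : Pt k) (n + ρ)) (fun _ => p) (fun A =>
        Arm N ρ m j (A ∩ bx (0 : Pt k) (j + ρ)) ∧
          Arm N ρ (j + ρ) n (A \ bx (0 : Pt k) (j + ρ))) :=
    PS_mono hU fun A _ h => arm_split hN hmj hjn h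
  have h2 := PS_indep (V := bx (0 : Pt k) (j + ρ))
    (V' := bx (0 : Pt k) (n + ρ) \ bx (0 : Pt k) (j + ρ)) (bx (0 : Pt k) (n + ρ)) hsub
    Finset.sdiff_subset Finset.disjoint_sdiff (fun _ => p)
    (E := fun A => Arm N ρ m j (A ∩ bx (0 : Pt k) (j + ρ)))
    (F := fun A => Arm N ρ (j + ρ) n (A \ bx (0 : Pt k) (j + ρ)))
    (fun A hA => by
      simp only [Finset.inter_assoc, Finset.inter_self])
    (fun A hA => by
      have : (A ∩ (bx (0 : Pt k) (n + ρ) \ bx (0 : Pt k) (j + ρ))) \ bx (0 : Pt k) (j + ρ) =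
          A \ bx (0 : Pt k) (j + ρ) := by
        ext x
        simp only [Finset.mem_sdiff, Finset.mem_inter]
        constructor
        · rintro ⟨⟨hx, _⟩, hx'⟩
          exact ⟨hx, hx'⟩
        · rintro ⟨hx, hx'⟩
          exact ⟨⟨hx, hA hx, hx'⟩, hx'⟩
      simp only [this])
  have h3 : PS (bx (0 : Pt k) (n + ρ)) (fun _ => p)
      (fun A => Arm N ρ m j (A ∩ bx (0 : Pt k) (j + ρ))) =
      PS (bx (0 : Pt k) (j + ρ)) (fun _ => p) (Arm N ρ m j) := by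
    rw [PS_marg hsub (fun _ => p) (E := fun A => Arm N ρ m j (A ∩ bx (0 : Pt k) (j + ρ)))
      (fun A hA => by simp only [Finset.inter_assoc, Finset.inter_self])]
    exact PS_congr (fun _ _ => rfl) fun A hA => by rw [Finset.inter_eq_left.2 hA]
  have h4 : PS (bx (0 : Pt k) (n + ρ)) (fun _ => p)
      (fun A => Arm N ρ (j + ρ) n (A \ bx (0 : Pt k) (j + ρ))) ≤
      PS (bx (0 : Pt k) (n + ρ)) (fun _ => p) (Arm N ρ (j + ρ) n) :=
    PS_mono hU fun A _ h => arm_mono le_rfl Finset.sdiff_subset h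
  calc PS (bx (0 : Pt k) (n + ρ)) (fun _ => p) (Arm N ρ m n) ≤ _ := h1
    _ = _ := h2
    _ ≤ _ := by
      rw [h3]
      exact mul_le_mul_of_nonneg_left h4 (PS_nonneg (u01 hp0 hp1 _) _)

theorem ann : AnnStmt := by
  intro k N ρ p θ hN hp0 hp1 hθ hperc η hη
  by_contra hcon
  push Not at hcon
  have key : ∀ m₀ : ℕ, ∃ n ≥ m₀,
      PS (bx (0 : Pt k) (n + ρ)) (fun _ => p) (Arm N ρ m₀ n) < 1 - η := by
    intro m₀
    obtain ⟨m, hm, n, hn, h⟩ := hcon m₀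
    refine ⟨n, hm.trans hn, lt_of_le_of_lt ?_ h⟩
    exact PS_mono (u01 hp0 hp1 _) fun A _ h => arm_mono hm (Finset.Subset.refl A) h
  have hη1 : 0 < 1 - η := by
    obtain ⟨n, _, h⟩ := key 0
    exact lt_of_le_of_lt (PS_nonneg (u01 hp0 hp1 _) _) h
  have it : ∀ i : ℕ, ∃ n : ℕ,
      PS (bx (0 : Pt k) (n + ρ)) (fun _ => p) (Arm N ρ 0 n) ≤ (1 - η) ^ i := by
    intro i
    induction i with
    | zero => exact ⟨0, by simpa using PS_le_one (u01 hp0 hp1 _) _⟩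
    | succ i ih =>
      obtain ⟨j, hj⟩ := ih
      obtain ⟨n, hn, h⟩ := key (j + ρ)
      refine ⟨n, (quasi hN hp0 hp1 (Nat.zero_le j) hn).trans ?_⟩
      rw [pow_succ]
      exact mul_le_mul hj h.le (PS_nonneg (u01 hp0 hp1 _) _) (pow_nonneg hη1.le _)
  have hlt : ∃ i : ℕ, (1 - η) ^ i < θ := exists_pow_lt_of_lt_one hθ (by linarith)
  obtain ⟨i, hi⟩ := hlt
  obtain ⟨n, hn⟩ := it i
  have h1 := hperc n
  have h2 : PS (bx (0 : Pt k) (n + ρ)) (fun _ => p)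
      (fun A => ∃ y ∈ bx (0 : Pt k) (n + ρ) \ bx 0 n, Conn N ↑A 0 y) ≤
      PS (bx (0 : Pt k) (n + ρ)) (fun _ => p) (Arm N ρ 0 n) := by
    refine PS_mono (u01 hp0 hp1 _) fun A _ h => ?_
    obtain ⟨y, hy, hc⟩ := h
    exact ⟨y, hy, 0, mem_bx.2 (fun i => by simp), hc⟩
  linarith

end Pool.Agent.TP.H48
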